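import Pool.Agent.L7h59.GG.Space

/-!
# The group algebras of the generic countable group are semiprimitive

For the generic group structure on the natural numbers the group algebra over every field has
Jacobson radical zero. In particular this holds for the rational group algebra.

Proof. Let `α` be a nonzero element of the group algebra `K[L]` of a countable group `L`, with
support `s₀, s₁, …, sₖ`. Let `H = C_q ≀ L` (`q = 2`, or `q = 3` in characteristic two) and embed
`L` diagonally in `W = H^k`. Let `σ_j ∈ W` be `s_j⁻¹` in the coordinate `j` (and trivial in the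
other coordinates) and `U_j` some `u_j ∈ H` in the coordinate `j`. The composition of the commuting
operators `β ↦ σ_j β - U_j⁻¹ σ_j β U_j` kills `s₁, …, sₖ` and maps `s₀` to a unit times
`∏ (1 - z_j)`, where `z_j` is a nontrivial commutator of order `q` in the coordinate `j`. So the
ideal generated by `α` in `K[W]` contains a nonzero idempotent, and `α` is not in the radical.
The equations and inequations used define an open set of groups, which is dense because each
finite part of the multiplication table of `L` is one of a countable subgroup of `W` too.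
-/

set_option autoImplicit false

universe u

namespace Pool.Agent.Results.MP_146d92_al.GenericSemiprimitive

open Pool.Agent.L7h59.GG

/-- The generic group (in the space of all group operations on `ℕ`) has the property that all its
group algebras over fields have Jacobson radical zero. -/
theorem result : {m : GroupSpace | ∀ (K : Type u) [Field K],
    Ring.jacobson (MonoidAlgebra K (Gp m)) = ⊥} ∈ residual GroupSpace := by
  have h : ∀ q : ℕ, 1 < q → ∀ᶠ m in residual GroupSpace, ∀ p : {p : List ℕ × ℕ //
      p.1.Nodup ∧ ∀ j ∈ p.1, j ≠ p.2}, ∃ σ U : ℕ → ℕ, LCert q p.1.1 p.1.2 σ U m := by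
    intro q hq
    rw [eventually_countable_forall]
    intro p
    exact residual_LCert q hq p.1.1 p.2.1 p.1.2 p.2.2
  filter_upwards [h 2 (by norm_num), h 3 (by norm_num)] with m h2 h3
  intro K _
  rw [eq_bot_iff]
  intro α hα
  rw [Ideal.mem_bot]
  by_contra hne
  have hsupp : α.coeff.support.Nonempty := by
    rw [Finsupp.support_nonempty_iff]
    exact fun h0 => hne (MonoidAlgebra.coeff_eq_zero.1 h0)
  obtain ⟨s₀, hs₀⟩ := hsupp
  classical
  let L : List (Gp m) := (α.coeff.support.erase s₀).toList
  let l : List ℕ := L.map num
  have hl : l.Nodup := (Finset.nodup_toList _).map fun _ _ h => num_inj h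
  have hne' : ∀ j ∈ l, j ≠ num s₀ := by
    intro j hj hjs
    obtain ⟨g, hg, rfl⟩ := List.mem_map.1 hj
    exact (Finset.mem_erase.1 (Finset.mem_toList.1 hg)).1 (num_inj hjs)
  have hα' : α = α.coeff s₀ • o K s₀ +
      (l.map fun j => α.coeff (lab m j) • o K (lab m j)).sum := by
    have e1 : ∀ g : Gp m, α.coeff g • o K g = MonoidAlgebra.single g (α.coeff g) := by
      intro g
      rw [o, MonoidAlgebra.of_apply, MonoidAlgebra.smul_single', mul_one]
    have e2 : (l.map fun j => α.coeff (lab m j) • o K (lab m j)).sum =
        ∑ g ∈ α.coeff.support.erase s₀, MonoidAlgebra.single g (α.coeff g) := by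
      rw [← Finset.sum_map_toList, List.map_map]
      congr 1
      apply List.map_congr_left
      intro g _
      exact e1 g
    rw [e1, e2, Finset.add_sum_erase _ (fun g => MonoidAlgebra.single g (α.coeff g)) hs₀]
    exact (MonoidAlgebra.sum_coeff_single α).symm
  have key : ∀ q : ℕ, (q = 2 ∨ q = 3) → (q : K) ≠ 0 → False := by
    intro q hq hq0
    have : ∃ σ U : ℕ → ℕ, LCert q l (num s₀) σ U m := by
      rcases hq with rfl | rfl
      · exact h2 ⟨(l, num s₀), hl, hne'⟩
      · exact h3 ⟨(l, num s₀), hl, hne'⟩
    obtain ⟨σ, U, c⟩ := this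
    have := not_mem_jacobson (K := K) ⟨hq, hq0⟩ c hl (α.coeff s₀) (Finsupp.mem_support_iff.1 hs₀)
      (fun j => α.coeff (lab m j))
    exact this (hα' ▸ hα)
  by_cases h0 : (2 : K) = 0
  · refine key 3 (Or.inr rfl) ?_
    have h1 : (1 : K) ≠ 0 := one_ne_zero
    intro h4
    apply h1
    have : ((3 : ℕ) : K) = 2 + 1 := by norm_num
    rw [this, h0, zero_add] at h4
    exact h4
  · exact key 2 (Or.inl rfl) (by exact_mod_cast h0)

end Pool.Agent.Results.MP_146d92_al.GenericSemiprimitive
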